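import Pool.Agent.KS6_36.LT.Inst

/-!
# Toral extensions of base maps which have the closing property with shadowing
-/

set_option autoImplicit false
set_option linter.unusedSectionVars false

open scoped Manifold ContDiff Topology
open Filter Set

universe u v

namespace Pool.Agent.KS6_36.LT

open Pool.Agent.H718R2.G

/-- The map `h` has at `b₀` the closing property with shadowing, for which the sums of the cocycle `β`
along the orbit segments stay close: orbit segments `b, ..., h^q(b)` with both ends close to `b₀` are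
shadowed by periodic orbits. (For example `h` is hyperbolic and `β` is Hölder continuous: Anosov's closing
lemma, with its exponential estimate.) -/
def ClosesWith {d : ℕ} {B : Type v} [MetricSpace B] (h : B → B) (β : B → V d) (b₀ : B) : Prop :=
  ∀ ε : ℝ, 0 < ε → ∃ δ : ℝ, 0 < δ ∧ ∀ b, dist b b₀ < δ → ∀ q : ℕ, 1 ≤ q → dist (h^[q] b) b₀ < δ →
    ∃ b', dist b' b₀ < ε ∧ h^[q] b' = b' ∧ ∀ i ≤ q, dist (h^[i] b') (h^[i] b) < ε ∧
      ‖∑ j ∈ Finset.range i, (β (h^[j] b') - β (h^[j] b))‖ < ε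

section base

variable {d : ℕ} {N : Type u} [TopologicalSpace N] [T2Space N] {K : Set N}
  {A : V d → N → N}
  (hint : ∀ a : V d, (∀ j, ∃ l : ℤ, a j = (l : ℝ)) → ∀ w ∈ K, A a w = w)
  {B : Type v} [MetricSpace B] [CompactSpace B] {h : B → B} {β : B → V d}
  {Θ : B → V d → N} (hΘc : Continuous (fun p : B × V d => Θ p.1 p.2)) (hΘK : ∀ b x, Θ b x ∈ K)
  (hΘs : ∀ w ∈ K, ∃ b x, Θ b x = w) (hΘA : ∀ a b x, A a (Θ b x) = Θ b (x + a))
  (hΘi : ∀ b x b' x', Θ b x = Θ b' x' → b = b' ∧ ∀ j, ∃ l : ℤ, (x - x') j = (l : ℝ))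
  {f₀ : N → N} (hf₀ : ∀ b x, f₀ (Θ b x) = Θ (h b) (x + β b))

include hint hΘK hΘA in
theorem theta_int (b : B) (x l : V d) (hl : ∀ j, ∃ m : ℤ, l j = (m : ℝ)) : Θ b (x + l) = Θ b x := by
  rw [← hΘA, hint l hl _ (hΘK b x)]

include hf₀ in
theorem theta_iter (i : ℕ) (b : B) (x : V d) :
    f₀^[i] (Θ b x) = Θ (h^[i] b) (x + ∑ j ∈ Finset.range i, β (h^[j] b)) := by
  induction i with
  | zero => simp
  | succ i ih =>
    rw [Function.iterate_succ_apply', ih, hf₀, Finset.sum_range_succ, add_assoc,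
      Function.iterate_succ_apply']

include hint hΘc hΘK hΘA hΘi in
theorem theta_near {δ : ℝ} (hδ : 0 < δ) : ∃ E : Set (N × N), IsOpen E ∧ (∀ w, (w, w) ∈ E) ∧
    ∀ b x b₁ x₁, (Θ b x, Θ b₁ x₁) ∈ E → dist b b₁ < δ ∧
      ∃ l : V d, (∀ j, ∃ m : ℤ, l j = (m : ℝ)) ∧ ‖x - x₁ - l‖ < δ := by
  let Z : Set ((B × V d) × (B × V d)) := {p | p ∈ (univ ×ˢ cube d) ×ˢ (univ ×ˢ cube d) ∧
    (δ ≤ dist p.1.1 p.2.1 ∨ ∀ l : V d, (∀ j, ∃ m : ℤ, l j = (m : ℝ)) → δ ≤ ‖p.1.2 - p.2.2 - l‖)}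
  have hZ : IsCompact Z := by
    have h1 : IsCompact (((univ : Set B) ×ˢ cube d) ×ˢ ((univ : Set B) ×ˢ cube d)) :=
      (isCompact_univ.prod (cube_compact d)).prod (isCompact_univ.prod (cube_compact d))
    apply h1.of_isClosed_subset _ (fun p hp => hp.1)
    refine h1.isClosed.inter (IsClosed.union ?_ ?_)
    · exact isClosed_le continuous_const
        ((continuous_fst.comp continuous_fst).dist (continuous_fst.comp continuous_snd))
    · have h2 : {p : (B × V d) × (B × V d) | ∀ l : V d, (∀ j, ∃ m : ℤ, l j = (m : ℝ)) →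
          δ ≤ ‖p.1.2 - p.2.2 - l‖} = ⋂ l : V d, ⋂ _ : (∀ j, ∃ m : ℤ, l j = (m : ℝ)),
          {p : (B × V d) × (B × V d) | δ ≤ ‖p.1.2 - p.2.2 - l‖} := by
        ext p
        simp only [mem_iInter]
        exact Iff.rfl
      have h3 : IsClosed {p : (B × V d) × (B × V d) | ∀ l : V d, (∀ j, ∃ m : ℤ, l j = (m : ℝ)) →
          δ ≤ ‖p.1.2 - p.2.2 - l‖} := by
        rw [h2]
        refine isClosed_iInter fun l => isClosed_iInter fun _ => ?_
        exact isClosed_le continuous_const ((((continuous_snd.comp continuous_fst).sub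
          (continuous_snd.comp continuous_snd)).sub continuous_const).norm)
      exact h3
  have hΘ2 : Continuous (fun p : (B × V d) × (B × V d) => (Θ p.1.1 p.1.2, Θ p.2.1 p.2.2)) :=
    (hΘc.comp continuous_fst).prodMk (hΘc.comp continuous_snd)
  refine ⟨((fun p : (B × V d) × (B × V d) => (Θ p.1.1 p.1.2, Θ p.2.1 p.2.2)) '' Z)ᶜ,
    (hZ.image hΘ2).isClosed.isOpen_compl, ?_, ?_⟩
  · rintro w ⟨p, ⟨-, hp⟩, hpw⟩
    have h1 : Θ p.1.1 p.1.2 = Θ p.2.1 p.2.2 := by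
      have h2 := congrArg Prod.fst hpw
      have h3 := congrArg Prod.snd hpw
      exact h2.trans h3.symm
    obtain ⟨h2, h3⟩ := hΘi _ _ _ _ h1
    rcases hp with hp | hp
    · rw [h2, dist_self] at hp
      linarith
    · have h4 := hp _ h3
      rw [sub_self, norm_zero] at h4
      linarith
  · intro b x b₁ x₁ hE
    obtain ⟨c, hc, hxc⟩ := to_cube x
    obtain ⟨c₁, hc₁, hxc₁⟩ := to_cube x₁
    have e1 : Θ b c = Θ b x := by
      have := theta_int hint hΘK hΘA b c (x - c) hxc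
      rw [add_sub_cancel] at this
      exact this.symm
    have e2 : Θ b₁ c₁ = Θ b₁ x₁ := by
      have := theta_int hint hΘK hΘA b₁ c₁ (x₁ - c₁) hxc₁
      rw [add_sub_cancel] at this
      exact this.symm
    by_contra hcon
    apply hE
    refine ⟨((b, c), (b₁, c₁)), ⟨⟨⟨mem_univ _, hc⟩, mem_univ _, hc₁⟩, ?_⟩, by
      show (Θ b c, Θ b₁ c₁) = _
      rw [e1, e2]⟩
    by_contra h2
    rw [not_or] at h2
    obtain ⟨h3, h4⟩ := h2
    push Not at h4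
    obtain ⟨l, hl, hl2⟩ := h4
    apply hcon
    refine ⟨not_le.1 h3, l + (x - c) - (x₁ - c₁), fun j => ?_, ?_⟩
    · obtain ⟨m1, hm1⟩ := hl j
      obtain ⟨m2, hm2⟩ := hxc j
      obtain ⟨m3, hm3⟩ := hxc₁ j
      refine ⟨m1 + m2 - m3, ?_⟩
      show l j + (x - c) j - (x₁ - c₁) j = _
      rw [hm1, hm2, hm3]
      push_cast
      ring
    · have e3 : x - x₁ - (l + (x - c) - (x₁ - c₁)) = c - c₁ - l := by abel
      rw [e3]
      exact hl2

include hint hΘc hΘK hΘA in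
theorem theta_fwd {D : Set (N × N)} (hD : IsOpen D) (hDd : ∀ w, (w, w) ∈ D) :
    ∃ δ : ℝ, 0 < δ ∧ ∀ b x b₁ x₁, dist b b₁ < δ → ‖x - x₁‖ < δ → (Θ b x, Θ b₁ x₁) ∈ D := by
  have hΘ2 : Continuous (fun p : (B × V d) × (B × V d) => (Θ p.1.1 p.1.2, Θ p.2.1 p.2.2)) :=
    (hΘc.comp continuous_fst).prodMk (hΘc.comp continuous_snd)
  have hC : IsCompact ((fun p : B × V d => (p, p)) '' ((univ : Set B) ×ˢ cube d)) :=
    (isCompact_univ.prod (cube_compact d)).image (by fun_prop)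
  obtain ⟨δ, hδ, hsub⟩ := hC.exists_thickening_subset_open (hD.preimage hΘ2) (by
    rintro _ ⟨p, -, rfl⟩
    exact hDd _)
  refine ⟨δ, hδ, fun b x b₁ x₁ hb hx => ?_⟩
  obtain ⟨c, hc, hxc⟩ := to_cube x
  have e1 : Θ b c = Θ b x := by
    have := theta_int hint hΘK hΘA b c (x - c) hxc
    rw [add_sub_cancel] at this
    exact this.symm
  have e2 : Θ b₁ (x₁ - (x - c)) = Θ b₁ x₁ := by
    have := theta_int hint hΘK hΘA b₁ (x₁ - (x - c)) (x - c) hxc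
    rw [sub_add_cancel] at this
    exact this.symm
  have h1 : ((b, c), (b₁, x₁ - (x - c))) ∈ (fun p : (B × V d) × (B × V d) =>
      (Θ p.1.1 p.1.2, Θ p.2.1 p.2.2)) ⁻¹' D := by
    apply hsub
    rw [Metric.mem_thickening_iff]
    refine ⟨((b, c), (b, c)), ⟨(b, c), ⟨mem_univ _, hc⟩, rfl⟩, ?_⟩
    rw [Prod.dist_eq, Prod.dist_eq, Prod.dist_eq, dist_self, dist_self]
    refine max_lt (max_lt hδ hδ) (max_lt ?_ ?_)
    · rw [dist_comm]
      exact hb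
    · show dist (x₁ - (x - c)) c < δ
      rw [dist_eq_norm, norm_sub_rev]
      have e3 : c - (x₁ - (x - c)) = x - x₁ := by abel
      rw [e3]
      exact hx
  have h2 : (Θ b c, Θ b₁ (x₁ - (x - c))) ∈ D := h1
  rwa [e1, e2] at h2

include hint hΘc hΘK hΘs hΘA hΘi hf₀ in
/-- toral extensions over a base with the closing property -/
theorem shadow_base {b₀ : B} (x₀ : V d) (hcl : ClosesWith h β b₀) :
    ShadowCloses A K f₀ (Θ b₀ x₀) := by
  intro D hD hDd ε hε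
  obtain ⟨δ₁, hδ₁, hfwd⟩ := theta_fwd hint hΘc hΘK hΘA hD hDd
  obtain ⟨ε₁, hε₁, hε₁1, hε₁2⟩ : ∃ ε₁, 0 < ε₁ ∧ 8 * ε₁ ≤ δ₁ ∧ 8 * ε₁ ≤ ε :=
    ⟨min (δ₁ / 8) (ε / 8), lt_min (by linarith) (by linarith),
      by linarith [min_le_left (δ₁ / 8) (ε / 8)], by linarith [min_le_right (δ₁ / 8) (ε / 8)]⟩
  obtain ⟨δ₂, hδ₂, hcl2⟩ := hcl ε₁ hε₁
  obtain ⟨δ₃, hδ₃, hδ₃1, hδ₃2⟩ : ∃ δ₃, 0 < δ₃ ∧ δ₃ ≤ δ₂ ∧ δ₃ ≤ ε₁ :=
    ⟨min δ₂ ε₁, lt_min hδ₂ hε₁, min_le_left _ _, min_le_right _ _⟩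
  obtain ⟨E, hEo, hEd, hE⟩ := theta_near hint hΘc hΘK hΘA hΘi hδ₃
  refine ⟨E, hEo, hEd, ?_⟩
  intro w hw hwy q hq t hret
  obtain ⟨b, x', rfl⟩ := hΘs w hw
  obtain ⟨hb, l, hl, hxl⟩ := hE _ _ _ _ hwy
  -- normalise
  obtain ⟨x, hx⟩ : ∃ x, x = x' - l := ⟨_, rfl⟩
  have hΘx : Θ b x' = Θ b x := by
    have := theta_int hint hΘK hΘA b x l hl
    rw [hx, sub_add_cancel] at this
    rw [hx]
    exact this
  have hxx₀ : ‖x - x₀‖ < δ₃ := by
    have e : x - x₀ = x' - x₀ - l := by rw [hx]; abel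
    rw [e]
    exact hxl
  rw [hΘx] at hret ⊢
  obtain ⟨Sb, hSb⟩ : ∃ Sb : B → ℕ → V d, ∀ b i, Sb b i = ∑ j ∈ Finset.range i, β (h^[j] b) :=
    ⟨_, fun _ _ => rfl⟩
  have hit : ∀ (i : ℕ) (b : B) (x : V d), f₀^[i] (Θ b x) = Θ (h^[i] b) (x + Sb b i) := by
    intro i b x
    rw [theta_iter hf₀, hSb]
  rw [hit, hΘA] at hret
  obtain ⟨hbq, μ, hμ, hxμ⟩ := hE _ _ _ _ hret
  obtain ⟨b', hb'1, hb'2, hb'3⟩ := hcl2 b (hb.trans_le hδ₃1) q hq (hbq.trans_le hδ₃1)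
  have hsum : ∀ i ≤ q, ‖Sb b' i - Sb b i‖ < ε₁ := by
    intro i hi
    have h1 := (hb'3 i hi).2
    rw [Finset.sum_sub_distrib] at h1
    rw [hSb, hSb]
    exact h1
  have hq0 : (0 : ℝ) < q := by exact_mod_cast hq
  obtain ⟨e, he⟩ : ∃ e : V d, e = t + μ - Sb b' q := ⟨_, rfl⟩
  have henorm : ‖e‖ < 3 * ε₁ := by
    have e1 : e = -(x + Sb b q - (x₀ + t) - μ) + (x - x₀) - (Sb b' q - Sb b q) := by
      rw [he]
      abel
    rw [e1]
    calc ‖-(x + Sb b q - (x₀ + t) - μ) + (x - x₀) - (Sb b' q - Sb b q)‖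
        ≤ ‖-(x + Sb b q - (x₀ + t) - μ) + (x - x₀)‖ + ‖Sb b' q - Sb b q‖ := norm_sub_le _ _
      _ ≤ ‖-(x + Sb b q - (x₀ + t) - μ)‖ + ‖x - x₀‖ + ‖Sb b' q - Sb b q‖ := by
          gcongr
          exact norm_add_le _ _
      _ < ε₁ + ε₁ + ε₁ := by
          rw [norm_neg]
          have := hsum q le_rfl
          linarith
      _ = 3 * ε₁ := by ring
  have hscale : ∀ i ≤ q, ‖(i : ℝ) • ((1 / (q : ℝ)) • e)‖ ≤ ‖e‖ := by
    intro i hi
    rw [smul_smul, norm_smul, Real.norm_eq_abs, abs_of_nonneg (by positivity), mul_one_div]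
    have : (i : ℝ) / q ≤ 1 := by
      rw [div_le_one hq0]
      exact_mod_cast hi
    calc (i : ℝ) / q * ‖e‖ ≤ 1 * ‖e‖ := mul_le_mul_of_nonneg_right this (norm_nonneg _)
      _ = ‖e‖ := one_mul _
  refine ⟨Θ b' x₀, hΘK _ _, hfwd _ _ _ _ (hb'1.trans_le (by linarith)) (by
    rw [sub_self, norm_zero]; exact hδ₁), (1 / (q : ℝ)) • e, ?_, ?_, ?_⟩
  · have h1 := hscale 1 hq
    rw [Nat.cast_one, one_smul] at h1
    linarith
  · rw [hit, hΘA, hΘA, hb'2, smul_smul, mul_one_div, div_self hq0.ne', one_smul, he]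
    have e1 : x₀ + Sb b' q + (t + μ - Sb b' q) = x₀ + t + μ := by abel
    rw [e1, theta_int hint hΘK hΘA _ _ μ hμ]
  · intro i hi a
    rw [hit, hit, hΘA, hΘA]
    apply hfwd
    · exact (hb'3 i hi).1.trans_le (by linarith)
    · have e1 : x₀ + Sb b' i + (a + (i : ℝ) • ((1 / (q : ℝ)) • e)) - (x + Sb b i + a) =
          (Sb b' i - Sb b i) - (x - x₀) + (i : ℝ) • ((1 / (q : ℝ)) • e) := by abel
      rw [e1]
      calc ‖(Sb b' i - Sb b i) - (x - x₀) + (i : ℝ) • ((1 / (q : ℝ)) • e)‖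
          ≤ ‖(Sb b' i - Sb b i) - (x - x₀)‖ + ‖(i : ℝ) • ((1 / (q : ℝ)) • e)‖ := norm_add_le _ _
        _ ≤ ‖Sb b' i - Sb b i‖ + ‖x - x₀‖ + ‖e‖ := add_le_add (norm_sub_le _ _) (hscale i hi)
        _ < δ₁ := by
            have := hsum i hi
            linarith

end base

end Pool.Agent.KS6_36.LT
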