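import Pool.Graph.R_seed8.TH382.HS.Limit
import Pool.Graph.R_seed8.TH382.HS.Fam

/-!
# Leafwise extensions: definitions
-/

set_option autoImplicit false

open scoped Manifold ContDiff Topology
open Filter Set

universe u

namespace Pool.Agent.KS6_36.LT

open Pool.Agent.H718R2.G Pool.Agent.TH80.CLX

/-- On the compact set `K` the diffeomorphism `F^m` is `w ↦ A(∑ τ_j(w) om_j) f₀(w)`:
* `A` is a smooth action of `ℝ^d` on the open set `O`, and `K ⊆ O` is compact, invariant under `A`, and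
  `ℤ^d` acts trivially on `K`, so that the torus `𝕋^d = ℝ^d / ℤ^d` acts on `K`;
* `f₀ : K → K` is continuous and commutes with the action;
* `om_j ∈ ℝ^d` are arbitrary directions, and the continuous functions `τ_j` are constant in the direction of
  `om_i` for `i ≠ j` (no condition for one direction);
* `F^m(K) ⊆ K` and `F^i(K)` does not meet `K` for `0 < i < m`.
Nothing is required of `F` elsewhere. -/
structure LeafData (n : ℕ) (N : Type u) [TopologicalSpace N] [ChartedSpace (V n) N] (d k m : ℕ)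
    (F : N → N) (O K : Set N) (A : V d → N → N) (om : Fin k → V d) (τ : Fin k → N → ℝ)
    (f₀ : N → N) : Prop where
  act : LAct d n N O A
  compact : IsCompact K
  sub : K ⊆ O
  inv : ∀ a, ∀ w ∈ K, A a w ∈ K
  int : ∀ a : V d, (∀ j, ∃ l : ℤ, a j = (l : ℝ)) → ∀ w ∈ K, A a w = w
  cont : ∀ j, Continuous (τ j)
  dir : ∀ i j, i ≠ j → ∀ t : ℝ, ∀ w ∈ K, τ j (A (t • om i) w) = τ j w
  base_cont : ContinuousOn f₀ K
  base_maps : ∀ w ∈ K, f₀ w ∈ K
  base_comm : ∀ a, ∀ w ∈ K, f₀ (A a w) = A a (f₀ w)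
  period : 1 ≤ m
  ret : ∀ w ∈ K, F^[m] w = A (∑ j, τ j w • om j) (f₀ w)
  disj : ∀ i, 1 ≤ i → i < m → ∀ w ∈ K, F^[i] w ∉ K

/-- `f₀` has the closing property with shadowing at `y`, modulo the action `A` of the torus and small
translations: if `w` is close to `y` and `f₀^q(w)` is close to `A(t) y`, then the orbit segment
`w, ..., f₀^q(w)` is shadowed, uniformly on the torus orbits, by an orbit segment `w', ..., A(t) w'` of the
map `A(c) ∘ f₀` with small `c`, with `w'` close to `y`. (`D`, `E` are neighbourhoods of the diagonal.) -/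
def ShadowCloses {d : ℕ} {N : Type u} [TopologicalSpace N] (A : V d → N → N) (K : Set N)
    (f₀ : N → N) (y : N) : Prop :=
  ∀ D : Set (N × N), IsOpen D → (∀ w, (w, w) ∈ D) → ∀ ε : ℝ, 0 < ε →
    ∃ E : Set (N × N), IsOpen E ∧ (∀ w, (w, w) ∈ E) ∧
      ∀ w ∈ K, (w, y) ∈ E → ∀ q : ℕ, 1 ≤ q → ∀ t : V d, (f₀^[q] w, A t y) ∈ E →
        ∃ w' ∈ K, (w', y) ∈ D ∧ ∃ c : V d, ‖c‖ < ε ∧ A ((q : ℝ) • c) (f₀^[q] w') = A t w' ∧
          ∀ i ≤ q, ∀ a, (A (a + (i : ℝ) • c) (f₀^[i] w'), A a (f₀^[i] w)) ∈ D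

end Pool.Agent.KS6_36.LT
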