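import Pool.Agent.KS6_36.LT.Defs
import Pool.Agent.KS6_36.LH.Core

/-!
# Leafwise extensions: closing inside of the compact set
-/

set_option autoImplicit false
set_option linter.unusedSectionVars false

open scoped Manifold ContDiff Topology
open Filter Set

universe u

namespace Pool.Agent.KS6_36.LT

open Pool.Agent.H718R2.G

/-- iteration of maps of the line with a constant drift -/
noncomputable def sc (g : ℕ → ℝ → ℝ) (s : ℝ) : ℕ → ℝ
  | 0 => 0
  | i + 1 => g i (sc g s i) + s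

theorem sc_cont {g : ℕ → ℝ → ℝ} (hg : ∀ i, Continuous (g i)) (q : ℕ) :
    Continuous (fun s => sc g s q) := by
  induction q with
  | zero => exact continuous_const
  | succ q ih => exact ((hg q).comp ih).add continuous_id

/-- comparison -/
theorem sc_ivt {g g₀ : ℕ → ℝ → ℝ} (hg : ∀ i, Continuous (g i)) (hg₀ : ∀ i, Monotone (g₀ i)) {ε : ℝ}
    (hε : 0 ≤ ε) {q : ℕ} (h : ∀ i < q, ∀ t, |g i t - g₀ i t| ≤ ε) :
    ∃ s : ℝ, |s| ≤ ε ∧ sc g s q = sc g₀ 0 q := by
  have hup : ∀ i ≤ q, sc g₀ 0 i ≤ sc g ε i := by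
    intro i
    induction i with
    | zero => intro _; exact le_rfl
    | succ i ih =>
      intro hi
      have h1 := hg₀ i (ih (by omega))
      have h2 := (abs_le.1 (h i (by omega) (sc g ε i))).1
      show g₀ i (sc g₀ 0 i) + 0 ≤ g i (sc g ε i) + ε
      linarith
  have hdown : ∀ i ≤ q, sc g (-ε) i ≤ sc g₀ 0 i := by
    intro i
    induction i with
    | zero => intro _; exact le_rfl
    | succ i ih =>
      intro hi
      have h1 := hg₀ i (ih (by omega))
      have h2 := (abs_le.1 (h i (by omega) (sc g (-ε) i))).2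
      show g i (sc g (-ε) i) + -ε ≤ g₀ i (sc g₀ 0 i) + 0
      linarith
  have h1 := intermediate_value_Icc (show -ε ≤ ε by linarith) ((sc_cont hg q).continuousOn)
    ⟨hdown q le_rfl, hup q le_rfl⟩
  obtain ⟨s, hs, hs2⟩ := h1
  exact ⟨s, abs_le.2 hs, hs2⟩

section dyn

variable {d k : ℕ} {N : Type u} [TopologicalSpace N] [T2Space N] {K : Set N} (hK : IsCompact K)
  {A : V d → N → N} (hA0 : ∀ w ∈ K, A 0 w = w) (hAadd : ∀ a b, ∀ w ∈ K, A (a + b) w = A a (A b w))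
  (hAK : ∀ a, ∀ w ∈ K, A a w ∈ K)
  (hAc : ContinuousOn (fun p : V d × N => A p.1 p.2) (univ ×ˢ K))
  (hint : ∀ a : V d, (∀ j, ∃ l : ℤ, a j = (l : ℝ)) → ∀ w ∈ K, A a w = w)
  {τ : Fin k → N → ℝ} (hτ : ∀ j, Continuous (τ j)) {om : Fin k → V d}
  (hdir : ∀ i j, i ≠ j → ∀ t : ℝ, ∀ w ∈ K, τ j (A (t • om i) w) = τ j w)
  {f₀ : N → N} (hf₀K : ∀ w ∈ K, f₀ w ∈ K) (hf₀A : ∀ a, ∀ w ∈ K, f₀ (A a w) = A a (f₀ w))
  {f : N → N} (hf : ∀ w ∈ K, f w = A (∑ j, τ j w • om j) (f₀ w)) (hfinj : InjOn f K)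

include hf₀K in
theorem iter_K (i : ℕ) (w : N) (hw : w ∈ K) : f₀^[i] w ∈ K := by
  induction i with
  | zero => exact hw
  | succ i ih => rw [Function.iterate_succ_apply']; exact hf₀K _ ih

include hA0 hAadd hAK hdir in
theorem dir_sum (j : Fin k) (S : Fin k → ℝ) (T : Finset (Fin k)) (hj : j ∉ T) (u : N) (hu : u ∈ K) :
    τ j (A (∑ l ∈ T, S l • om l) u) = τ j u := by
  classical
  induction T using Finset.induction_on with
  | empty => rw [Finset.sum_empty, hA0 u hu]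
  | insert a T ha ih =>
    rw [Finset.sum_insert ha, hAadd _ _ u hu, hdir a j (by
      rintro rfl
      exact hj (Finset.mem_insert_self _ _)) _ _ (hAK _ u hu)]
    exact ih fun h => hj (Finset.mem_insert_of_mem h)

include hA0 hAadd hAK hdir in
theorem decouple (j : Fin k) (S : Fin k → ℝ) (b : V d) (u : N) (hu : u ∈ K) :
    τ j (A (b + ∑ l, S l • om l) u) = τ j (A (b + S j • om j) u) := by
  classical
  have h1 : b + ∑ l, S l • om l = ∑ l ∈ Finset.univ.erase j, S l • om l + (b + S j • om j) := by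
    rw [← Finset.add_sum_erase Finset.univ (fun l => S l • om l) (Finset.mem_univ j)]
    abel
  rw [h1, hAadd _ _ u hu]
  exact dir_sum hA0 hAadd hAK hdir j S _ (Finset.notMem_erase j _) _ (hAK _ u hu)

/-- the leaf coordinates of the iterates -/
noncomputable def SS (A : V d → N → N) (τ : Fin k → N → ℝ) (om : Fin k → V d) (f₀ : N → N) (c : V d)
    (w : N) (j : Fin k) (i : ℕ) (t : ℝ) : ℝ :=
  t + τ j (A ((i : ℝ) • c + t • om j) (f₀^[i] w))

include hA0 hAadd hAK hdir hf₀K hf₀A hf in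
theorem iter_eq (c : V d) (s : Fin k → ℝ) (w : N) (hw : w ∈ K) (i : ℕ) :
    (fun v => A (c + ∑ j, s j • om j) (f v))^[i] w =
      A ((i : ℝ) • c + ∑ j, sc (SS A τ om f₀ c w j) (s j) i • om j) (f₀^[i] w) := by
  induction i with
  | zero =>
    have h1 : ((0 : ℕ) : ℝ) • c + ∑ j, sc (SS A τ om f₀ c w j) (s j) 0 • om j = 0 := by
      rw [Nat.cast_zero, zero_smul, zero_add]
      apply Finset.sum_eq_zero
      intro j _
      show (0 : ℝ) • om j = 0
      rw [zero_smul]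
    rw [h1]
    exact (hA0 w hw).symm
  | succ i ih =>
    have hv := iter_K hf₀K i w hw
    rw [Function.iterate_succ_apply', ih]
    show A (c + ∑ j, s j • om j)
      (f (A ((i : ℝ) • c + ∑ j, sc (SS A τ om f₀ c w j) (s j) i • om j) (f₀^[i] w))) = _
    rw [hf _ (hAK _ _ hv), hf₀A _ _ hv, ← Function.iterate_succ_apply' f₀]
    have hv' := iter_K hf₀K (i + 1) w hw
    rw [← hAadd _ _ _ hv', ← hAadd _ _ _ hv']
    congr 1
    have h2 : ∀ j, τ j (A ((i : ℝ) • c + ∑ j, sc (SS A τ om f₀ c w j) (s j) i • om j) (f₀^[i] w)) =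
        τ j (A ((i : ℝ) • c + sc (SS A τ om f₀ c w j) (s j) i • om j) (f₀^[i] w)) := fun j =>
      decouple hA0 hAadd hAK hdir j (fun j => sc (SS A τ om f₀ c w j) (s j) i) _ _ hv
    simp only [h2]
    have h3 : ∑ j, sc (SS A τ om f₀ c w j) (s j) (i + 1) • om j =
        ∑ j, sc (SS A τ om f₀ c w j) (s j) i • om j +
        ∑ j, τ j (A ((i : ℝ) • c + sc (SS A τ om f₀ c w j) (s j) i • om j) (f₀^[i] w)) • om j +
        ∑ j, s j • om j := by
      rw [← Finset.sum_add_distrib, ← Finset.sum_add_distrib]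
      refine Finset.sum_congr rfl fun j _ => ?_
      rw [← add_smul, ← add_smul]
      rfl
    rw [h3, Nat.cast_succ, add_smul, one_smul]
    abel

include hK hA0 hAadd hAK hAc hτ hdir hf₀K hf₀A hf hfinj in
theorem leaf_mono (j : Fin k) (v : N) (hv : v ∈ K) :
    StrictMono (fun t : ℝ => t + τ j (A (t • om j) v)) := by
  classical
  have hc1 : Continuous (fun t : ℝ => A (t • om j) v) := by
    have h1 : ContinuousOn (fun t : ℝ => A (t • om j) v) univ :=
      hAc.comp (f := fun t : ℝ => ((t • om j, v) : V d × N)) (by fun_prop)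
        (fun t _ => ⟨mem_univ _, hv⟩)
    exact continuousOn_univ.1 h1
  obtain ⟨B, hB⟩ : ∃ B, ∀ w ∈ K, |τ j w| ≤ B := by
    obtain ⟨B, hB⟩ := (hK.image (hτ j)).isBounded.exists_norm_le
    exact ⟨B, fun w hw => hB _ ⟨w, hw, rfl⟩⟩
  apply Pool.Agent.KS6_36.LH.mono_of_inj (B := B)
  · exact continuous_id.add ((hτ j).comp hc1)
  · intro t t' htt
    have h1 : ∀ t : ℝ, f (A (t • om j) v) =
        A (∑ l ∈ Finset.univ.erase j, τ l v • om l + (t + τ j (A (t • om j) v)) • om j) (f₀ v) := by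
      intro t
      rw [hf _ (hAK _ v hv), hf₀A _ v hv, ← hAadd _ _ _ (hf₀K v hv)]
      congr 1
      rw [← Finset.add_sum_erase Finset.univ (fun l => τ l (A (t • om j) v) • om l)
        (Finset.mem_univ j), add_smul]
      have h2 : ∑ l ∈ Finset.univ.erase j, τ l (A (t • om j) v) • om l =
          ∑ l ∈ Finset.univ.erase j, τ l v • om l := by
        refine Finset.sum_congr rfl fun l hl => ?_
        rw [hdir j l (Finset.ne_of_mem_erase hl).symm t v hv]
      rw [h2]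
      abel
    have h3 : t + τ j (A (t • om j) v) = t' + τ j (A (t' • om j) v) := htt
    have h4 : A (t • om j) v = A (t' • om j) v := by
      apply hfinj (hAK _ v hv) (hAK _ v hv)
      rw [h1, h1, h3]
    rw [h4] at h3
    linarith
  · intro t
    show |t + τ j (A (t • om j) v) - t| ≤ B
    rw [add_sub_cancel_left]
    exact hB _ (hAK _ v hv)

include hK hA0 hAadd hAK hAc hτ hdir hf₀K hf₀A hf hfinj in
/-- closing inside of `K`: the shadowing orbit of `f₀` gives a periodic orbit -/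
theorem close_dyn {w w' : N} (hw : w ∈ K) (hw' : w' ∈ K) {q : ℕ} {ε : ℝ} (hε : 0 < ε)
    {t c : V d} (ht : t = -∑ j, sc (SS A τ om f₀ 0 w j) 0 q • om j)
    (hret : A ((q : ℝ) • c) (f₀^[q] w') = A t w')
    (hsh : ∀ i ≤ q, ∀ a j, |τ j (A (a + (i : ℝ) • c) (f₀^[i] w')) - τ j (A a (f₀^[i] w))| ≤ ε) :
    ∃ s : Fin k → ℝ, (∀ j, |s j| ≤ ε) ∧
      (fun v => A (c + ∑ j, s j • om j) (f v))^[q] w' = w' := by
  have hs : ∀ j, ∃ s : ℝ, |s| ≤ ε ∧ sc (SS A τ om f₀ c w' j) s q = sc (SS A τ om f₀ 0 w j) 0 q := by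
    intro j
    apply sc_ivt _ _ hε.le
    · intro i hi t
      show |t + τ j (A ((i : ℝ) • c + t • om j) (f₀^[i] w')) -
        (t + τ j (A ((i : ℝ) • (0 : V d) + t • om j) (f₀^[i] w)))| ≤ ε
      rw [smul_zero, zero_add, add_sub_add_left_eq_sub, add_comm ((i : ℝ) • c)]
      exact hsh i hi.le _ j
    · intro i
      have h1 : ContinuousOn (fun t : ℝ => A ((i : ℝ) • c + t • om j) (f₀^[i] w')) univ :=
        hAc.comp (f := fun t : ℝ => (((i : ℝ) • c + t • om j, f₀^[i] w') : V d × N)) (by fun_prop)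
          (fun t _ => ⟨mem_univ _, iter_K hf₀K i w' hw'⟩)
      exact continuous_id.add ((hτ j).comp (continuousOn_univ.1 h1))
    · intro i
      have h1 := (leaf_mono hK hA0 hAadd hAK hAc hτ hdir hf₀K hf₀A hf hfinj j _
        (iter_K hf₀K i w hw)).monotone
      intro x y hxy
      have h2 := h1 hxy
      show x + τ j (A ((i : ℝ) • (0 : V d) + x • om j) (f₀^[i] w)) ≤
        y + τ j (A ((i : ℝ) • (0 : V d) + y • om j) (f₀^[i] w))
      rw [smul_zero, zero_add, zero_add]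
      exact h2
  choose s hs1 hs2 using hs
  refine ⟨s, hs1, ?_⟩
  rw [iter_eq hA0 hAadd hAK hdir hf₀K hf₀A hf c s w' hw' q]
  simp only [hs2]
  rw [add_comm, hAadd _ _ _ (iter_K hf₀K q w' hw'), hret, ← hAadd _ _ _ hw', ht, add_neg_cancel,
    hA0 w' hw']

/-- the cube -/
def cube (d : ℕ) : Set (V d) := {x | ∀ j, x j ∈ Icc (0 : ℝ) 1}

theorem cube_compact (d : ℕ) : IsCompact (cube d) := by
  have h1 : IsCompact (Set.pi univ (fun _ : Fin d => Icc (0 : ℝ) 1)) :=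
    isCompact_univ_pi fun _ => isCompact_Icc
  have h2 : cube d = (EuclideanSpace.equiv (Fin d) ℝ).toHomeomorph ⁻¹'
      (Set.pi univ (fun _ : Fin d => Icc (0 : ℝ) 1)) := by
    ext x
    simp only [cube, mem_ofPred_eq, mem_preimage, mem_univ_pi]
    exact Iff.rfl
  rw [h2]
  exact (EuclideanSpace.equiv (Fin d) ℝ).toHomeomorph.isCompact_preimage.2 h1

/-- reduction to the cube -/
theorem to_cube (a : V d) : ∃ b ∈ cube d, ∀ j, ∃ l : ℤ, (a - b) j = (l : ℝ) := by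
  refine ⟨WithLp.toLp 2 (fun j => Int.fract (a j)), fun j => ?_, fun j => ⟨⌊a j⌋, ?_⟩⟩
  · exact ⟨Int.fract_nonneg _, (Int.fract_lt_one _).le⟩
  · show a j - Int.fract (a j) = _
    rw [Int.self_sub_fract]

include hK hAadd hAK hAc hint hA0 in
/-- equicontinuity -/
theorem equi {D : Set (N × N)} (hD : IsOpen D) (hdiag : ∀ w, (w, w) ∈ D) :
    ∃ E : Set (N × N), IsOpen E ∧ (∀ w, (w, w) ∈ E) ∧ ∃ η : ℝ, 0 < η ∧
      ∀ u ∈ K, ∀ v ∈ K, (u, v) ∈ E → ∀ δ : V d, ‖δ‖ ≤ η → ∀ a, (A (a + δ) u, A a v) ∈ D := by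
  -- first on the cube
  have hcont : ContinuousOn (fun p : (V d × V d) × (N × N) => (A (p.1.1 + p.1.2) p.2.1, A p.1.1 p.2.2))
      (univ ×ˢ (K ×ˢ K)) := by
    apply ContinuousOn.prodMk
    · exact hAc.comp (f := fun p : (V d × V d) × (N × N) => ((p.1.1 + p.1.2, p.2.1) : V d × N))
        (by fun_prop) (fun p hp => ⟨mem_univ _, hp.2.1⟩)
    · exact hAc.comp (f := fun p : (V d × V d) × (N × N) => ((p.1.1, p.2.2) : V d × N))
        (by fun_prop) (fun p hp => ⟨mem_univ _, hp.2.2⟩)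
  -- for small `η` and points close to the diagonal of `K`
  by_contra hcon
  push Not at hcon
  -- the bad sets are compact and decreasing
  let Bad : ℕ → Set ((V d × V d) × (N × N)) := fun m =>
    {p | p ∈ (cube d ×ˢ Metric.closedBall 0 (1 / ((m : ℝ) + 1))) ×ˢ (K ×ˢ K) ∧
      (A (p.1.1 + p.1.2) p.2.1, A p.1.1 p.2.2) ∉ D}
  have hbc : ∀ m, IsCompact (Bad m) := by
    intro m
    have h1 : IsCompact ((cube d ×ˢ Metric.closedBall (0 : V d) (1 / ((m : ℝ) + 1))) ×ˢ (K ×ˢ K)) :=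
      ((cube_compact d).prod (isCompact_closedBall _ _)).prod (hK.prod hK)
    have h2 : IsClosed (Bad m) := by
      have h3 : ContinuousOn (fun p : (V d × V d) × (N × N) =>
          (A (p.1.1 + p.1.2) p.2.1, A p.1.1 p.2.2))
          ((cube d ×ˢ Metric.closedBall (0 : V d) (1 / ((m : ℝ) + 1))) ×ˢ (K ×ˢ K)) :=
        hcont.mono fun p hp => ⟨mem_univ _, hp.2⟩
      exact h3.preimage_isClosed_of_isClosed h1.isClosed hD.isClosed_compl
    exact h1.of_isClosed_subset h2 fun p hp => hp.1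
  -- projection to pairs of points
  have hE : ∀ m, IsOpen (((fun p : (V d × V d) × (N × N) => p.2) '' Bad m)ᶜ) := fun m =>
    ((hbc m).image continuous_snd).isClosed.isOpen_compl
  have hex : ∃ m, ∀ w, (w, w) ∈ ((fun p : (V d × V d) × (N × N) => p.2) '' Bad m)ᶜ := by
    by_contra hcon2
    push Not at hcon2
    have hne : ∀ m, (Bad m ∩ {p | p.2.1 = p.2.2}).Nonempty := by
      intro m
      obtain ⟨w, hw⟩ := hcon2 m
      rw [notMem_compl_iff] at hw
      obtain ⟨p, hp, hpw⟩ := hw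
      refine ⟨p, hp, ?_⟩
      show p.2.1 = p.2.2
      rw [show p.2 = (w, w) from hpw]
    have hcl : IsClosed {p : (V d × V d) × (N × N) | p.2.1 = p.2.2} :=
      isClosed_eq (by fun_prop) (by fun_prop)
    have hmono : ∀ m m', m ≤ m' → Bad m' ⊆ Bad m := by
      rintro m m' hm p ⟨⟨⟨h1, h2⟩, h3⟩, h4⟩
      refine ⟨⟨⟨h1, Metric.closedBall_subset_closedBall ?_ h2⟩, h3⟩, h4⟩
      apply one_div_le_one_div_of_le (by positivity)
      have : (m : ℝ) ≤ m' := by exact_mod_cast hm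
      linarith
    obtain ⟨p, hp⟩ := IsCompact.nonempty_iInter_of_sequence_nonempty_isCompact_isClosed
      (fun m => Bad m ∩ {p | p.2.1 = p.2.2})
      (fun m => inter_subset_inter_left _ (hmono m (m + 1) (Nat.le_succ m))) hne
      ((hbc 0).inter_right hcl) (fun m => (hbc m).isClosed.inter hcl)
    rw [mem_iInter] at hp
    have h1 : p.1.2 = 0 := by
      have h2 : ∀ m : ℕ, ‖p.1.2‖ ≤ 1 / ((m : ℝ) + 1) := fun m => by
        have := (hp m).1.1.1.2
        rwa [mem_closedBall_zero_iff] at this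
      have h3 : ‖p.1.2‖ ≤ 0 :=
        ge_of_tendsto' tendsto_one_div_add_atTop_nhds_zero_nat h2
      exact norm_le_zero_iff.1 h3
    apply (hp 0).1.2
    have h2 : p.2.1 = p.2.2 := (hp 0).2
    rw [h1, add_zero, h2]
    exact hdiag _
  obtain ⟨m, hm⟩ := hex
  obtain ⟨u, hu, v, hv, huv, δ, hδ, a, ha⟩ := hcon _ (hE m) hm (1 / ((m : ℝ) + 1)) (by positivity)
  obtain ⟨b, hb, hab⟩ := to_cube a
  apply huv
  refine ⟨((b, δ), (u, v)), ⟨⟨⟨hb, by rwa [mem_closedBall_zero_iff]⟩, hu, hv⟩, ?_⟩, rfl⟩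
  show (A (b + δ) u, A b v) ∉ D
  intro h1
  apply ha
  have e1 : a + δ = (a - b) + (b + δ) := by abel
  have e2 : a = (a - b) + b := by abel
  have e3 : A (a + δ) u = A (b + δ) u := by
    rw [e1, hAadd _ _ u hu, hint _ hab _ (hAK _ u hu)]
  have e4 : A a v = A b v := by
    have e5 : A (a - b + b) v = A b v := by rw [hAadd _ _ v hv, hint _ hab _ (hAK _ v hv)]
    rwa [← e2] at e5
  rw [e3, e4]
  exact h1

include hK hA0 hAadd hAK hAc hint hτ hdir hf₀K hf₀A hf hfinj in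
/-- the closing lemma inside of `K` -/
theorem close_K {y : N} (hy : y ∈ K) (hrec : ∀ W ∈ 𝓝 y, ∃ q : ℕ, 1 ≤ q ∧ ∃ w ∈ W, w ∈ K ∧ f^[q] w ∈ W)
    (hsc : ShadowCloses A K f₀ y) {W : Set N} (hW : W ∈ 𝓝 y) {ε : ℝ} (hε : 0 < ε) :
    ∃ a : V d, ‖a‖ < ε ∧ ∃ w' ∈ W, w' ∈ K ∧ ∃ q : ℕ, 1 ≤ q ∧ (fun v => A a (f v))^[q] w' = w' := by
  -- the size of the drift
  obtain ⟨B, hB0, hB⟩ : ∃ B : ℝ, 0 < B ∧ ∑ j, ‖om j‖ ≤ B :=
    ⟨∑ j, ‖om j‖ + 1, by positivity, by linarith⟩
  obtain ⟨ε', hε', hε'1⟩ : ∃ ε', 0 < ε' ∧ ε' + ε' * B < ε := by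
    refine ⟨ε / (2 * (1 + B)), by positivity, ?_⟩
    have : ε / (2 * (1 + B)) + ε / (2 * (1 + B)) * B = ε / 2 := by field_simp
    rw [this]
    linarith
  -- the neighbourhood of the diagonal
  obtain ⟨W', hW', hW'o, hyW'⟩ := mem_nhds_iff.1 hW
  obtain ⟨D, hDo, hDd, hDτ, hDW⟩ : ∃ D : Set (N × N), IsOpen D ∧ (∀ w, (w, w) ∈ D) ∧
      (∀ p ∈ D, ∀ j, |τ j p.1 - τ j p.2| < ε') ∧ ∀ w, (w, y) ∈ D → w ∈ W := by
    refine ⟨(⋂ j, {p : N × N | |τ j p.1 - τ j p.2| < ε'}) ∩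
      ({p : N × N | p.1 ∈ W'} ∪ {p | p.2 ≠ y}), ?_, ?_, ?_, ?_⟩
    · refine IsOpen.inter (isOpen_iInter_of_finite fun j => ?_) (IsOpen.union ?_ ?_)
      · exact isOpen_lt (((hτ j).comp continuous_fst).sub ((hτ j).comp continuous_snd)).abs
          continuous_const
      · exact hW'o.preimage continuous_fst
      · exact isOpen_ne.preimage continuous_snd
    · intro w
      refine ⟨mem_iInter.2 fun j => ?_, ?_⟩
      · show |τ j w - τ j w| < ε'
        rw [sub_self, abs_zero]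
        exact hε'
      · by_cases h : w = y
        · left
          show w ∈ W'
          rw [h]
          exact hyW'
        · exact Or.inr h
    · rintro p ⟨hp, -⟩ j
      exact mem_iInter.1 hp j
    · rintro w ⟨-, h1 | h1⟩
      · exact hW' h1
      · exact absurd rfl h1
  obtain ⟨E, hEo, hEd, hE⟩ := hsc D hDo hDd ε' hε'
  obtain ⟨E', hE'o, hE'd, η, hη, hE'⟩ := equi hK hA0 hAadd hAK hAc hint hEo hEd
  have hW'' : {w | (w, y) ∈ E ∩ E'} ∈ 𝓝 y := by
    have hc : Continuous (fun w : N => (w, y)) := by fun_prop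
    exact hc.continuousAt.preimage_mem_nhds ((hEo.inter hE'o).mem_nhds ⟨hEd y, hE'd y⟩)
  obtain ⟨q, hq, w, hw, hwK, hqw⟩ := hrec _ hW''
  obtain ⟨t, ht⟩ : ∃ t : V d, t = -∑ j, sc (SS A τ om f₀ 0 w j) 0 q • om j := ⟨_, rfl⟩
  have hfK : ∀ i : ℕ, f^[i] w ∈ K ∧ f^[i] w =
      A (∑ j, sc (SS A τ om f₀ 0 w j) 0 i • om j) (f₀^[i] w) := by
    intro i
    have h1 := iter_eq hA0 hAadd hAK hdir hf₀K hf₀A hf (0 : V d) (fun _ => 0) w hwK i
    have h2 : ∀ i : ℕ, (fun v => A ((0 : V d) + ∑ j, (0 : ℝ) • om j) (f v))^[i] w = f^[i] w := by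
      intro i
      induction i with
      | zero => rfl
      | succ i ih =>
        have h3 := iter_eq hA0 hAadd hAK hdir hf₀K hf₀A hf (0 : V d) (fun _ => 0) w hwK i
        rw [Function.iterate_succ_apply', ih, Function.iterate_succ_apply']
        rw [ih] at h3
        have h4 : f^[i] w ∈ K := by
          rw [h3]
          exact hAK _ _ (iter_K hf₀K i w hwK)
        have h5 : f (f^[i] w) ∈ K := by
          rw [hf _ h4]
          exact hAK _ _ (hf₀K _ h4)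
        have h6 : (0 : V d) + ∑ j, (0 : ℝ) • om j = 0 := by simp
        show A ((0 : V d) + ∑ j, (0 : ℝ) • om j) (f (f^[i] w)) = _
        rw [h6, hA0 _ h5]
    rw [h2] at h1
    have h3 : f^[i] w = A (∑ j, sc (SS A τ om f₀ 0 w j) 0 i • om j) (f₀^[i] w) := by
      rw [h1, smul_zero, zero_add]
    refine ⟨?_, h3⟩
    rw [h3]
    exact hAK _ _ (iter_K hf₀K i w hwK)
  have hE1 : (f₀^[q] w, A t y) ∈ E := by
    have h1 := hE' _ (hfK q).1 y hy hqw.2 0 (by rw [norm_zero]; exact hη.le) t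
    have h2 : A (t + 0) (f^[q] w) = f₀^[q] w := by
      rw [add_zero, (hfK q).2, ← hAadd _ _ _ (iter_K hf₀K q w hwK), ht, neg_add_cancel,
        hA0 _ (iter_K hf₀K q w hwK)]
    rwa [h2] at h1
  obtain ⟨w', hw'K, hw'y, c, hc, hret, hsh⟩ := hE w hwK hw.1 q hq t hE1
  obtain ⟨s, hs, hper⟩ := close_dyn hK hA0 hAadd hAK hAc hτ hdir hf₀K hf₀A hf hfinj hwK hw'K hε' ht
    hret (fun i hi a j => (hDτ _ (hsh i hi a) j).le)
  refine ⟨c + ∑ j, s j • om j, ?_, w', hDW _ hw'y, hw'K, q, hq, hper⟩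
  have h1 : ‖∑ j, s j • om j‖ ≤ ε' * B := by
    calc ‖∑ j, s j • om j‖ ≤ ∑ j, ‖s j • om j‖ := norm_sum_le _ _
      _ ≤ ∑ j, ε' * ‖om j‖ := by
          refine Finset.sum_le_sum fun j _ => ?_
          rw [norm_smul, Real.norm_eq_abs]
          exact mul_le_mul_of_nonneg_right (hs j) (norm_nonneg _)
      _ = ε' * ∑ j, ‖om j‖ := by rw [Finset.mul_sum]
      _ ≤ ε' * B := mul_le_mul_of_nonneg_left hB hε'.le
  calc ‖c + ∑ j, s j • om j‖ ≤ ‖c‖ + ‖∑ j, s j • om j‖ := norm_add_le _ _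
    _ ≤ ε' + ε' * B := add_le_add hc.le h1
    _ < ε := hε'1

end dyn

end Pool.Agent.KS6_36.LT
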