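import Pool.Agent.KS6_36.LT.Base

/-!
# Leafwise maps of torus orbits: the final form
-/

set_option autoImplicit false
set_option linter.unusedSectionVars false

open scoped Manifold ContDiff Topology
open Filter Set

universe u

namespace Pool.Agent.KS6_36.LT

open Pool.Agent.H718R2.G Pool.Agent.TH382.QC Pool.Agent.TH382.HS Pool.Agent.TH80.CLX
open Pool.Agent.W564.SC (NonWand)

/-- Some power of `f₀ : K → K` moves the points of `K` inside of the orbits of the action `A` of the torus,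
by elements which only depend on the orbit: `f₀^l(w) = A(β(w)) w`. For example `f₀` is the identity, or an
isometry some power of which belongs to the torus. -/
def RootOn {d : ℕ} {N : Type u} [TopologicalSpace N] (A : V d → N → N) (K : Set N)
    (f₀ : N → N) : Prop :=
  ∃ (l : ℕ) (β : N → V d), 1 ≤ l ∧ Continuous β ∧ (∀ a, ∀ w ∈ K, β (A a w) = β w) ∧
    ∀ w ∈ K, f₀^[l] w = A (β w) w

/-- `K ≅ B × 𝕋^d`, where the torus acts by translations, and `f₀(b, x) = (h(b), x + β(b))` with a map `h`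
of the compact metric space `B` which has, at the point `b₀` over which `y` lies, the closing property with
shadowing (`ClosesWith`, Anosov's closing lemma). -/
def ExtAt {d : ℕ} {N : Type u} [TopologicalSpace N] (A : V d → N → N) (K : Set N)
    (f₀ : N → N) (y : N) : Prop :=
  ∃ (B : Type u) (_ : MetricSpace B) (_ : CompactSpace B) (h : B → B) (β : B → V d)
    (Θ : B → V d → N) (b₀ : B) (x₀ : V d), Continuous (fun p : B × V d => Θ p.1 p.2) ∧
    (∀ b x, Θ b x ∈ K) ∧ (∀ w ∈ K, ∃ b x, Θ b x = w) ∧ (∀ a b x, A a (Θ b x) = Θ b (x + a)) ∧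
    (∀ b x b' x', Θ b x = Θ b' x' → b = b' ∧ ∀ j, ∃ l : ℤ, (x - x') j = (l : ℝ)) ∧
    (∀ b x, f₀ (Θ b x) = Θ (h b) (x + β b)) ∧ y = Θ b₀ x₀ ∧ ClosesWith h β b₀

variable {n : ℕ} {N : Type u} [TopologicalSpace N] [T2Space N] [CompactSpace N]
  [ChartedSpace (V n) N] [IsManifold (𝓡 n) ∞ N] {r : ℕ∞}

theorem close_final {d k m : ℕ} (F : DiffM n N r) {O K : Set N} {A : V d → N → N}
    {om : Fin k → V d} {τ : Fin k → N → ℝ} {f₀ : N → N}
    (h : LeafData n N d k m F O K A om τ f₀) {y : N} (hy : y ∈ K)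
    (hrec : ∀ W ∈ 𝓝 y, ∃ q : ℕ, 1 ≤ q ∧ ∃ w ∈ W, w ∈ K ∧ F^[m * q] w ∈ W)
    (hb : RootOn A K f₀ ∨ ExtAt A K f₀ y) : ClosableAt n N r F y := by
  apply close_leaf F h hy hrec
  have hA0 : ∀ w ∈ K, A 0 w = w := fun w hw => h.act.zero w (h.sub hw)
  have hAadd : ∀ a b, ∀ w ∈ K, A (a + b) w = A a (A b w) := fun a b w hw =>
    h.act.add a b w (h.sub hw)
  have hAc : ContinuousOn (fun p : V d × N => A p.1 p.2) (univ ×ˢ K) :=
    h.act.smooth.continuousOn.mono (prod_mono subset_rfl h.sub)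
  rcases hb with ⟨l, β, hl, hβ, hβA, hroot⟩ | hb
  · exact shadow_root h.compact hA0 hAadd h.inv hAc h.int h.base_cont h.base_maps h.base_comm hβ hβA
      hl hroot hy
  · obtain ⟨B, _, _, f, β, Θ, b₀, x₀, h1, h2, h3, h4, h5, h6, rfl, h8⟩ := hb
    exact shadow_base h.int h1 h2 h3 h4 h5 h6 x₀ h8

/-- torus actions on the whole manifold -/
theorem torus_data {d k : ℕ} {R : V d → N → N} (hR : IsTorusAct d n N R) (om : Fin k → V d)
    (τ : Fin k → N → ℝ) (hτ : ∀ j, Continuous (τ j))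
    (hdir : ∀ i j, i ≠ j → ∀ (t : ℝ) (w : N), τ j (R (t • om i) w) = τ j w) (f₀ : N → N)
    (hf₀ : Continuous f₀) (hcomm : ∀ a w, f₀ (R a w) = R a (f₀ w)) (F : N → N)
    (hF : ∀ w, F w = R (∑ j, τ j w • om j) (f₀ w)) :
    LeafData n N d k 1 F univ univ R om τ f₀ where
  act :=
    { isOpen := isOpen_univ
      maps := fun _ _ _ => mem_univ _
      smooth := hR.smooth.contMDiffOn
      zero := fun y _ => hR.zero y
      add := fun s t y _ => hR.add s t y }
  compact := isCompact_univ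
  sub := subset_rfl
  inv := fun _ _ _ => mem_univ _
  int := fun a ha w _ => hR.int a ha w
  cont := hτ
  dir := fun i j hij t w _ => hdir i j hij t w
  base_cont := hf₀.continuousOn
  base_maps := fun _ _ => mem_univ _
  base_comm := fun a w _ => hcomm a w
  period := le_rfl
  ret := fun w _ => hF w
  disj := fun i h1 h2 => by omega

/-- maps which move the points along one-parameter subgroups of a torus, composed with isometries -/
theorem close_torus {d k : ℕ} {R : V d → N → N} (hR : IsTorusAct d n N R) (om : Fin k → V d)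
    (τ : Fin k → N → ℝ) (hτ : ∀ j, Continuous (τ j))
    (hdir : ∀ i j, i ≠ j → ∀ (t : ℝ) (w : N), τ j (R (t • om i) w) = τ j w) (f₀ : N → N)
    (hf₀ : Continuous f₀) (hcomm : ∀ a w, f₀ (R a w) = R a (f₀ w)) (l : ℕ) (hl : 1 ≤ l)
    (β : N → V d) (hβ : Continuous β) (hβR : ∀ a w, β (R a w) = β w)
    (hroot : ∀ w, f₀^[l] w = R (β w) w) (F : DiffM n N r)
    (hF : ∀ w, F w = R (∑ j, τ j w • om j) (f₀ w)) (z : N) (hz : NonWand F z) :
    ClosableAt n N r F z := by
  apply close_final F (torus_data hR om τ hτ hdir f₀ hf₀ hcomm F hF) (mem_univ z)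
  · intro W hW
    obtain ⟨q, hq, w, hw, hqw⟩ := hz W hW
    exact ⟨q, hq, w, hw, mem_univ _, by rwa [one_mul]⟩
  · exact Or.inl ⟨l, β, hl, hβ, fun a w _ => hβR a w, fun w _ => hroot w⟩

end Pool.Agent.KS6_36.LT
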