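import Pool.Agent.KS6_36.LT.Main

/-!
# Isometric base maps have the closing property with shadowing
-/

set_option autoImplicit false
set_option linter.unusedSectionVars false

open scoped Manifold ContDiff Topology
open Filter Set

universe u

namespace Pool.Agent.KS6_36.LT

open Pool.Agent.H718R2.G

section iso

variable {d : ℕ} {N : Type u} [TopologicalSpace N] [T2Space N] [CompactSpace N] {K : Set N}
  (hK : IsCompact K)
  {A : V d → N → N} (hA0 : ∀ w ∈ K, A 0 w = w) (hAadd : ∀ a b, ∀ w ∈ K, A (a + b) w = A a (A b w))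
  (hAK : ∀ a, ∀ w ∈ K, A a w ∈ K)
  (hAc : ContinuousOn (fun p : V d × N => A p.1 p.2) (univ ×ˢ K))
  (hint : ∀ a : V d, (∀ j, ∃ l : ℤ, a j = (l : ℝ)) → ∀ w ∈ K, A a w = w)

include hK hA0 hAadd hAK hAc hint in
/-- small returns on a torus orbit come from small translations -/
theorem small_return {y u : N} (hu : u ∈ K) {η : ℝ} (hη : 0 < η) :
    ∃ W : Set N, IsOpen W ∧ y ∈ W ∧ ∀ s : V d, A s u ∈ W → ∃ δ : V d, ‖δ‖ < η ∧ A (s + δ) u = y := by
  let U : Set (V d) := {s | ∃ δ : V d, ‖δ‖ < η ∧ A (s + δ) u = y}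
  have hU : IsOpen U := by
    rw [Metric.isOpen_iff]
    rintro s ⟨δ, hδ, hs⟩
    refine ⟨η - ‖δ‖, by linarith, fun s' hs' => ⟨δ + (s - s'), ?_, ?_⟩⟩
    · rw [Metric.mem_ball, dist_eq_norm, norm_sub_rev] at hs'
      have := norm_add_le δ (s - s')
      linarith
    · have e : s' + (δ + (s - s')) = s + δ := by abel
      rw [e, hs]
  have hZ : IsCompact (cube d ∩ Uᶜ) := (cube_compact d).inter_right hU.isClosed_compl
  have hcy : Continuous (fun s : V d => A s u) := by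
    have h1 : ContinuousOn (fun s : V d => A s u) univ :=
      hAc.comp (f := fun s : V d => ((s, u) : V d × N)) (by fun_prop) (fun s _ => ⟨mem_univ _, hu⟩)
    exact continuousOn_univ.1 h1
  refine ⟨((fun s : V d => A s u) '' (cube d ∩ Uᶜ))ᶜ, (hZ.image hcy).isClosed.isOpen_compl, ?_, ?_⟩
  · rintro ⟨s, ⟨-, hs⟩, hsy⟩
    apply hs
    refine ⟨0, by rwa [norm_zero], ?_⟩
    rw [add_zero]
    exact hsy
  · intro s hs
    obtain ⟨b, hb, hab⟩ := to_cube s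
    have e1 : A s u = A b u := by
      have e2 : A (s - b + b) u = A b u := by rw [hAadd _ _ u hu, hint _ hab _ (hAK _ u hu)]
      rwa [sub_add_cancel] at e2
    have hbU : b ∈ U := by
      by_contra hbU
      exact hs ⟨b, ⟨hb, hbU⟩, e1.symm⟩
    obtain ⟨δ, hδ, hbδ⟩ := hbU
    refine ⟨δ, hδ, ?_⟩
    have e3 : s + δ = (s - b) + (b + δ) := by abel
    have hby : A (b + δ) u ∈ K := hAK _ u hu
    rw [e3, hAadd _ _ u hu, hint _ hab _ hby, hbδ]

variable {f₀ : N → N} (hf₀c : ContinuousOn f₀ K) (hf₀K : ∀ w ∈ K, f₀ w ∈ K)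
  (hf₀A : ∀ a, ∀ w ∈ K, f₀ (A a w) = A a (f₀ w))
  {β : N → V d} (hβ : Continuous β) (hβA : ∀ a, ∀ w ∈ K, β (A a w) = β w)
  {l : ℕ} (hl : 1 ≤ l) (hroot : ∀ w ∈ K, f₀^[l] w = A (β w) w)

include hf₀K hf₀A in
theorem iter_A (i : ℕ) (a : V d) (w : N) (hw : w ∈ K) : f₀^[i] (A a w) = A a (f₀^[i] w) := by
  induction i with
  | zero => rfl
  | succ i ih =>
    rw [Function.iterate_succ_apply', ih, hf₀A _ _ (iter_K hf₀K i w hw),
      ← Function.iterate_succ_apply' f₀]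

include hA0 hAadd hAK hβA hf₀K hf₀A hroot in
theorem root_iter (w : N) (hw : w ∈ K) (p j : ℕ) :
    f₀^[l * p + j] w = A ((p : ℝ) • β w) (f₀^[j] w) := by
  have h1 : ∀ p : ℕ, f₀^[l * p] w = A ((p : ℝ) • β w) w := by
    intro p
    induction p with
    | zero =>
      rw [Nat.cast_zero, zero_smul, hA0 w hw]
      rfl
    | succ p ih =>
      rw [Nat.mul_succ, add_comm, Function.iterate_add_apply, ih, hroot _ (hAK _ w hw),
        hβA _ w hw, ← hAadd _ _ w hw, Nat.cast_succ, add_smul, one_smul, add_comm]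
  rw [add_comm, Function.iterate_add_apply, h1, iter_A hf₀K hf₀A j _ w hw]

include hf₀c hf₀K in
theorem iter_contOn (j : ℕ) : ContinuousOn (f₀^[j]) K := by
  induction j with
  | zero => exact continuousOn_id
  | succ j ih =>
    have h1 : f₀^[j + 1] = f₀ ∘ f₀^[j] := Function.iterate_succ' f₀ j
    rw [h1]
    exact hf₀c.comp ih (fun w hw => iter_K hf₀K j w hw)

include hK hA0 hAadd hAK hAc hint hf₀c hf₀K hf₀A hβ hβA hl hroot in
/-- isometric maps: a power is a translation by elements of the torus -/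
theorem shadow_root {y : N} (hy : y ∈ K) : ShadowCloses A K f₀ y := by
  intro D hD hDd ε hε
  obtain ⟨E₁, hE₁o, hE₁d, η, hη, hE₁⟩ := equi hK hA0 hAadd hAK hAc hint hD hDd
  obtain ⟨η', hη', hη'1, hη'2⟩ : ∃ η', 0 < η' ∧ 3 * η' ≤ η ∧ 2 * η' < ε :=
    ⟨min (η / 3) (ε / 3), lt_min (by linarith) (by linarith),
      by linarith [min_le_left (η / 3) (ε / 3)], by linarith [min_le_right (η / 3) (ε / 3)]⟩
  have hfy : ∀ j, f₀^[j] y ∈ K := fun j => iter_K hf₀K j y hy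
  obtain ⟨W₂, hW₂o, hyW₂, hW₂⟩ : ∃ W : Set N, IsOpen W ∧ y ∈ W ∧ ∀ j < l, ∀ s : V d,
      A s (f₀^[j] y) ∈ W → ∃ δ : V d, ‖δ‖ < η' ∧ A (s + δ) (f₀^[j] y) = y := by
    have h1 : ∀ j : Fin l, ∃ W : Set N, IsOpen W ∧ y ∈ W ∧ ∀ s : V d,
      A s (f₀^[j] y) ∈ W → ∃ δ : V d, ‖δ‖ < η' ∧ A (s + δ) (f₀^[j] y) = y := fun j =>
      small_return (y := y) hK hA0 hAadd hAK hAc hint (hfy j) hη'
    choose W h2 h3 h4 using h1
    refine ⟨⋂ j, W j, isOpen_iInter_of_finite h2, mem_iInter.2 h3, fun j hj s hs => ?_⟩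
    exact h4 ⟨j, hj⟩ s (mem_iInter.1 hs ⟨j, hj⟩)
  -- a smaller neighbourhood
  obtain ⟨W₃, hW₃, hW₃o, hW₃W⟩ : ∃ W₃ : Set N, y ∈ W₃ ∧ IsOpen W₃ ∧ closure W₃ ⊆ W₂ := by
    obtain ⟨T, h1, h2, h3⟩ := exists_mem_nhds_isClosed_subset (hW₂o.mem_nhds hyW₂)
    exact ⟨interior T, mem_interior_iff_mem_nhds.2 h1, isOpen_interior,
      (closure_minimal interior_subset h2).trans h3⟩
  obtain ⟨E₅, hE₅o, hE₅d, hE₅⟩ : ∃ E₅ : Set (N × N), IsOpen E₅ ∧ (∀ w, (w, w) ∈ E₅) ∧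
      ∀ u v, u ∈ W₃ → (u, v) ∈ E₅ → v ∈ W₂ := by
    refine ⟨{p | p.1 ∈ (closure W₃)ᶜ} ∪ {p | p.2 ∈ W₂}, ?_, ?_, ?_⟩
    · exact (isClosed_closure.isOpen_compl.preimage continuous_fst).union
        (hW₂o.preimage continuous_snd)
    · intro w
      by_cases h : w ∈ closure W₃
      · exact Or.inr (hW₃W h)
      · exact Or.inl h
    · rintro u v hu (h | h)
      · exact absurd (subset_closure hu) h
      · exact h
  obtain ⟨E₆, hE₆o, hE₆d, η₆, hη₆, hE₆⟩ := equi hK hA0 hAadd hAK hAc hint hE₅o hE₅d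
  have hnb : ∀ W : Set N, IsOpen W → y ∈ W → ∃ E : Set (N × N), IsOpen E ∧ (∀ w, (w, w) ∈ E) ∧
      ∀ u, (u, y) ∈ E → u ∈ W := by
    intro W hW hyW
    refine ⟨{p | p.1 ∈ W} ∪ {p | p.2 ≠ y}, ?_, ?_, ?_⟩
    · exact (hW.preimage continuous_fst).union (isOpen_ne.preimage continuous_snd)
    · intro w
      by_cases h : w = y
      · left
        show w ∈ W
        rw [h]
        exact hyW
      · exact Or.inr h
    · rintro u (h | h)
      · exact h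
      · exact absurd rfl h
  obtain ⟨E₇, hE₇o, hE₇d, hE₇⟩ := hnb W₃ hW₃o hW₃
  obtain ⟨E₈, hE₈o, hE₈d, η₈, hη₈, hE₈⟩ := equi hK hA0 hAadd hAK hAc hint hE₇o hE₇d
  -- closeness of the first iterates
  obtain ⟨W₉, hW₉o, hyW₉, hW₉⟩ : ∃ W : Set N, IsOpen W ∧ y ∈ W ∧ ∀ w ∈ W, w ∈ K →
      (∀ j < l, (f₀^[j] y, f₀^[j] w) ∈ E₁ ∧ (f₀^[j] w, f₀^[j] y) ∈ E₆) ∧ ‖β w - β y‖ < η' := by
    have h1 : ∀ᶠ w in 𝓝[K] y, (∀ j ∈ Finset.range l,
        (f₀^[j] y, f₀^[j] w) ∈ E₁ ∧ (f₀^[j] w, f₀^[j] y) ∈ E₆) ∧ ‖β w - β y‖ < η' := by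
      refine Filter.Eventually.and ?_ ?_
      · rw [Filter.eventually_all_finset]
        intro j _
        have h2 : ContinuousWithinAt (f₀^[j]) K y := iter_contOn hf₀c hf₀K j y hy
        refine Filter.Eventually.and ?_ ?_
        · have h3 : Tendsto (fun w => (f₀^[j] y, f₀^[j] w)) (𝓝[K] y) (𝓝 (f₀^[j] y, f₀^[j] y)) :=
            tendsto_const_nhds.prodMk_nhds h2
          exact h3.eventually (hE₁o.mem_nhds (hE₁d _))
        · have h3 : Tendsto (fun w => (f₀^[j] w, f₀^[j] y)) (𝓝[K] y) (𝓝 (f₀^[j] y, f₀^[j] y)) :=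
            Tendsto.prodMk_nhds h2 tendsto_const_nhds
          exact h3.eventually (hE₆o.mem_nhds (hE₆d _))
      · have h3 : Continuous (fun w => ‖β w - β y‖) := (hβ.sub continuous_const).norm
        have h4 : Tendsto (fun w => ‖β w - β y‖) (𝓝 y) (𝓝 0) := by
          have h5 := h3.tendsto y
          rwa [sub_self, norm_zero] at h5
        exact (h4.eventually (gt_mem_nhds hη')).filter_mono nhdsWithin_le_nhds
    rw [eventually_nhdsWithin_iff, eventually_nhds_iff] at h1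
    obtain ⟨W, h2, h3, h4⟩ := h1
    exact ⟨W, h3, h4, fun w hw hwK => ⟨fun j hj => (h2 w hw hwK).1 j (Finset.mem_range.2 hj),
      (h2 w hw hwK).2⟩⟩
  obtain ⟨E₉, hE₉o, hE₉d, hE₉⟩ := hnb W₉ hW₉o hyW₉
  refine ⟨E₉ ∩ E₈, hE₉o.inter hE₈o, fun w => ⟨hE₉d w, hE₈d w⟩, ?_⟩
  rintro w hw ⟨h1, -⟩ q hq t ⟨-, h4⟩
  obtain ⟨h2, h3⟩ := hW₉ w (hE₉ _ h1) hw
  have hq0 : (0 : ℝ) < q := by exact_mod_cast hq
  have hl0 : 0 < l := hl
  have hl0' : (0 : ℝ) < l := by exact_mod_cast hl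
  -- division with remainder
  have hdiv : ∀ i : ℕ, ∀ u ∈ K, f₀^[i] u = A (((i / l : ℕ) : ℝ) • β u) (f₀^[i % l] u) := by
    intro i u hu
    have h5 := root_iter hA0 hAadd hAK hf₀K hf₀A hβA hroot u hu (i / l) (i % l)
    rwa [Nat.div_add_mod] at h5
  have hmod : ∀ i : ℕ, i % l < l := fun i => Nat.mod_lt _ hl0
  obtain ⟨j, hj⟩ : ∃ j, j = q % l := ⟨_, rfl⟩
  obtain ⟨p, hp⟩ : ∃ p, p = q / l := ⟨_, rfl⟩
  have hwj : f₀^[j] w ∈ K := iter_K hf₀K j w hw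
  have hyj : f₀^[j] y ∈ K := hfy j
  rw [hdiv q w hw, ← hj, ← hp] at h4
  -- `A s (f₀^j w)` is close to `y`
  have h5 := hE₈ _ (hAK _ _ hwj) _ (hAK _ y hy) h4 0 (by rw [norm_zero]; exact hη₈.le) (-t)
  rw [add_zero, ← hAadd _ _ _ hwj, ← hAadd _ _ y hy, neg_add_cancel, hA0 y hy] at h5
  have h6 := hE₇ _ h5
  have h7 := hE₆ _ hwj _ hyj (h2 j (hj ▸ hmod q)).2 0 (by rw [norm_zero]; exact hη₆.le)
    (-t + (p : ℝ) • β w)
  rw [add_zero] at h7
  obtain ⟨δ, hδ, hδy⟩ := hW₂ j (hj ▸ hmod q) _ (hE₅ _ _ h6 h7)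
  have hpq : (p : ℝ) / q ≤ 1 := by
    rw [div_le_one hq0, hp]
    exact_mod_cast Nat.div_le_self q l
  have hpq0 : (0 : ℝ) ≤ (p : ℝ) / q := by positivity
  have hq1 : 1 / (q : ℝ) ≤ 1 := by
    rw [div_le_one hq0]
    exact_mod_cast hq
  refine ⟨y, hy, hDd y, ((p : ℝ) / q) • (β w - β y) + (1 / (q : ℝ)) • δ, ?_, ?_, ?_⟩
  · have h8 : ‖(1 / (q : ℝ)) • δ‖ ≤ ‖δ‖ := by
      rw [norm_smul, Real.norm_eq_abs, abs_of_pos (by positivity)]
      calc 1 / (q : ℝ) * ‖δ‖ ≤ 1 * ‖δ‖ := mul_le_mul_of_nonneg_right hq1 (norm_nonneg _)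
        _ = ‖δ‖ := one_mul _
    have h9 : ‖((p : ℝ) / q) • (β w - β y)‖ ≤ ‖β w - β y‖ := by
      rw [norm_smul, Real.norm_eq_abs, abs_of_nonneg hpq0]
      calc (p : ℝ) / q * ‖β w - β y‖ ≤ 1 * ‖β w - β y‖ :=
            mul_le_mul_of_nonneg_right hpq (norm_nonneg _)
        _ = ‖β w - β y‖ := one_mul _
    have := norm_add_le (((p : ℝ) / q) • (β w - β y)) ((1 / (q : ℝ)) • δ)
    linarith
  · rw [hdiv q y hy, ← hj, ← hp, ← hAadd _ _ _ hyj]
    have e1 : (q : ℝ) • (((p : ℝ) / q) • (β w - β y) + (1 / (q : ℝ)) • δ) + (p : ℝ) • β y =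
        t + (-t + (p : ℝ) • β w + δ) := by
      rw [smul_add, smul_smul, smul_smul, mul_one_div, div_self hq0.ne', one_smul,
        mul_div_cancel₀ _ hq0.ne', smul_sub]
      abel
    rw [e1, hAadd _ _ _ hyj, hδy]
  · intro i hi a
    have hyi : f₀^[i % l] y ∈ K := hfy _
    have hwi : f₀^[i % l] w ∈ K := iter_K hf₀K _ w hw
    rw [hdiv i y hy, hdiv i w hw, ← hAadd _ _ _ hyi, ← hAadd _ _ _ hwi]
    obtain ⟨x, hx⟩ : ∃ x : ℝ, x = (i : ℝ) * ((p : ℝ) / q) - ((i / l : ℕ) : ℝ) := ⟨_, rfl⟩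
    have e1 : a + (i : ℝ) • (((p : ℝ) / q) • (β w - β y) + (1 / (q : ℝ)) • δ) +
        ((i / l : ℕ) : ℝ) • β y =
        (a + ((i / l : ℕ) : ℝ) • β w) + (x • (β w - β y) + ((i : ℝ) / q) • δ) := by
      rw [smul_add, smul_smul, smul_smul, mul_one_div, hx, sub_smul, smul_sub ((i / l : ℕ) : ℝ)]
      abel
    rw [e1]
    apply hE₁ _ hyi _ hwi (h2 _ (hmod i)).1
    have h8 : (i : ℝ) / q ≤ 1 := by
      rw [div_le_one hq0]
      exact_mod_cast hi
    -- the bound of `x`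
    have hx2 : |x| ≤ 2 := by
      have hi' : (i : ℝ) = l * ((i / l : ℕ) : ℝ) + ((i % l : ℕ) : ℝ) := by
        exact_mod_cast (Nat.div_add_mod i l).symm
      have hq' : (q : ℝ) = l * (p : ℝ) + (j : ℝ) := by
        rw [hp, hj]
        exact_mod_cast (Nat.div_add_mod q l).symm
      have hr1 : ((i % l : ℕ) : ℝ) ≤ l := by exact_mod_cast (hmod i).le
      have hr2 : (j : ℝ) ≤ l := by
        rw [hj]
        exact_mod_cast (hmod q).le
      have hr0 : (0 : ℝ) ≤ ((i % l : ℕ) : ℝ) := Nat.cast_nonneg _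
      have hj0 : (0 : ℝ) ≤ (j : ℝ) := Nat.cast_nonneg _
      have hiq : (i : ℝ) ≤ q := by exact_mod_cast hi
      have hi0 : (0 : ℝ) ≤ i := Nat.cast_nonneg _
      have e2 : x * (l * q) = (q : ℝ) * ((i % l : ℕ) : ℝ) - (i : ℝ) * j := by
        rw [hx, sub_mul]
        have e3 : (i : ℝ) * ((p : ℝ) / q) * (l * q) = i * (l * p) := by
          field_simp
        have e4 : (l : ℝ) * p = q - j := by linarith
        have e5 : (l : ℝ) * ((i / l : ℕ) : ℝ) = i - ((i % l : ℕ) : ℝ) := by linarith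
        rw [e3, e4]
        calc (i : ℝ) * (q - j) - ((i / l : ℕ) : ℝ) * (l * q)
            = i * (q - j) - (l * ((i / l : ℕ) : ℝ)) * q := by ring
          _ = _ := by rw [e5]; ring
      have hlq : 0 < (l : ℝ) * q := by positivity
      have h9 : |x * (l * q)| ≤ 2 * (l * q) := by
        rw [e2, abs_le]
        constructor
        · nlinarith [mul_nonneg hq0.le hr0, mul_le_mul hiq hr2 hj0 hq0.le]
        · nlinarith [mul_le_mul_of_nonneg_left hr1 hq0.le, mul_nonneg hi0 hj0]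
      rw [abs_mul, abs_of_pos hlq] at h9
      exact le_of_mul_le_mul_right h9 hlq
    calc ‖x • (β w - β y) + ((i : ℝ) / q) • δ‖
        ≤ ‖x • (β w - β y)‖ + ‖((i : ℝ) / q) • δ‖ := norm_add_le _ _
      _ ≤ 2 * η' + η' := by
          apply add_le_add
          · rw [norm_smul, Real.norm_eq_abs]
            exact mul_le_mul hx2 h3.le (norm_nonneg _) (by norm_num)
          · rw [norm_smul, Real.norm_eq_abs, abs_of_nonneg (by positivity)]
            calc (i : ℝ) / q * ‖δ‖ ≤ 1 * ‖δ‖ := mul_le_mul_of_nonneg_right h8 (norm_nonneg _)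
              _ ≤ η' := by rw [one_mul]; exact hδ.le
      _ ≤ η := by linarith

end iso

end Pool.Agent.KS6_36.LT
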