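import Pool.Agent.KS6_36.LT.Dyn

/-!
# Leafwise extensions: closing in `Diff^r`
-/

set_option autoImplicit false
set_option linter.unusedSectionVars false

open scoped Manifold ContDiff Topology
open Filter Set Metric

universe u

namespace Pool.Agent.KS6_36.LT

open Pool.Agent.H718R2.G Pool.Agent.W564.SC Pool.Agent.TH382.QC Pool.Agent.TH382.HS
open Pool.Agent.TH80.CLX

variable {n : ℕ} {N : Type u} [TopologicalSpace N] [T2Space N] [CompactSpace N]
  [ChartedSpace (V n) N] [IsManifold (𝓡 n) ∞ N] {r : ℕ∞}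

theorem close_leaf {d k m : ℕ} (F : DiffM n N r) {O K : Set N} {A : V d → N → N}
    {om : Fin k → V d} {τ : Fin k → N → ℝ} {f₀ : N → N}
    (h : LeafData n N d k m F O K A om τ f₀) {y : N} (hy : y ∈ K)
    (hrec : ∀ W ∈ 𝓝 y, ∃ q : ℕ, 1 ≤ q ∧ ∃ w ∈ W, w ∈ K ∧ F^[m * q] w ∈ W)
    (hsc : ShadowCloses A K f₀ y) : ClosableAt n N r F y := by
  classical
  have : SecondCountableTopology N := ChartedSpace.secondCountable_of_sigmaCompact (V n) N
  have hA0 : ∀ w ∈ K, A 0 w = w := fun w hw => h.act.zero w (h.sub hw)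
  have hAadd : ∀ a b, ∀ w ∈ K, A (a + b) w = A a (A b w) := fun a b w hw =>
    h.act.add a b w (h.sub hw)
  have hAc : ContinuousOn (fun p : V d × N => A p.1 p.2) (univ ×ˢ K) :=
    h.act.smooth.continuousOn.mono (prod_mono subset_rfl h.sub)
  have hretK : ∀ w ∈ K, F^[m] w ∈ K := fun w hw => by
    rw [h.ret w hw]
    exact h.inv _ _ (h.base_maps w hw)
  have hinj : InjOn (F^[m]) K := (F.injective.iterate m).injOn
  -- closing inside of `K`
  obtain ⟨W, hW⟩ := (𝓝 y).exists_antitone_basis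
  have hcl : ∀ i : ℕ, ∃ a : V d, ‖a‖ < 1 / ((i : ℝ) + 1) ∧ ∃ w' ∈ W i, w' ∈ K ∧
      ∃ q : ℕ, 1 ≤ q ∧ (fun v => A a (F^[m] v))^[q] w' = w' := by
    intro i
    apply close_K h.compact hA0 hAadd h.inv hAc h.int h.cont h.dir h.base_maps h.base_comm
      h.ret hinj hy _ hsc (hW.1.mem_of_mem trivial) (by positivity)
    intro W' hW'
    obtain ⟨q, hq, w, hw, hwK, hqw⟩ := hrec W' hW'
    exact ⟨q, hq, w, hw, hwK, by rwa [← Function.iterate_mul]⟩
  choose a ha w hwW hwK q hq hper using hcl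
  -- the cut-off
  obtain ⟨C0, hC0⟩ : ∃ C0 : Set N, C0 = ⋃ i ∈ Finset.Ico 1 m, F^[i] '' K := ⟨_, rfl⟩
  have hFc : ∀ i : ℕ, Continuous (F^[i]) := fun i => F.continuous.iterate i
  have hC0c : IsClosed C0 := by
    rw [hC0]
    exact isClosed_biUnion_finset fun i _ => (h.compact.image (hFc i)).isClosed
  have hdisj0 : Disjoint C0 K := by
    rw [Set.disjoint_left]
    intro w hw1 hw2
    rw [hC0] at hw1
    simp only [mem_iUnion, Finset.mem_Ico] at hw1
    obtain ⟨i, ⟨hi1, hi2⟩, v, hv, hvw⟩ := hw1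
    apply h.disj i hi1 hi2 v hv
    rwa [hvw]
  obtain ⟨O₁, hO₁, hCO₁, hO₁O, hO₁c⟩ := exists_open_between_and_isCompact_closure h.compact
    h.act.isOpen h.sub
  have hD : IsClosed (C0 ∪ O₁ᶜ) := hC0c.union hO₁.isClosed_compl
  have hdisj : Disjoint (C0 ∪ O₁ᶜ) K := by
    rw [Set.disjoint_union_left]
    exact ⟨hdisj0, Set.disjoint_left.2 fun w hw hwC => hw (hCO₁ hwC)⟩
  obtain ⟨f, hf0, hf1, -⟩ := exists_contMDiffMap_zero_one_of_isClosed (n := ⊤) (𝓡 n) hD
    h.compact.isClosed hdisj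
  have hρ : ContMDiff (𝓡 n) 𝓘(ℝ, ℝ) ∞ (f : N → ℝ) := f.contMDiff
  have hρ0 : ∀ w ∈ O, w ∉ closure O₁ → f w = 0 := by
    intro w _ hwK
    exact hf0 (Or.inr fun h1 => hwK (subset_closure h1))
  obtain ⟨H, ε, hε, hH0, hfam, hH⟩ := lact_fam' h.act hρ (closure O₁) hO₁c isClosed_closure hO₁O
    hρ0 r F
  have htt : Tendsto a atTop (𝓝 0) := by
    rw [tendsto_zero_iff_norm_tendsto_zero]
    exact squeeze_zero (fun i => norm_nonneg _) (fun i => (ha i).le)
      tendsto_one_div_add_atTop_nhds_zero_nat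
  have hcv : Cv (fun i => H (a i)) F := by
    have h1 := Cv.fam Pool.Agent.W917.SC.comp hfam htt
    rwa [hH0] at h1
  have hwt : Tendsto w atTop (𝓝 y) := hW.tendsto hwW
  have hyt : Tendsto (fun i => A (-a i) (w i)) atTop (𝓝 y) := by
    have h1 : ContinuousAt (fun p : V d × N => A p.1 p.2) (0, y) :=
      h.act.smooth.continuousOn.continuousAt
        ((isOpen_univ.prod h.act.isOpen).mem_nhds ⟨mem_univ _, h.sub hy⟩)
    have h2 : Tendsto (fun i => ((-a i, w i) : V d × N)) atTop (𝓝 (0, y)) := by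
      have h3 := htt.neg
      rw [neg_zero] at h3
      exact h3.prodMk_nhds hwt
    have h4 := h1.tendsto.comp h2
    have h5 : A ((0 : V d), y).1 ((0 : V d), y).2 = y := hA0 y hy
    rw [h5] at h4
    exact h4
  refine closable_of_seq F y (fun i => H (a i)) hcv _ hyt ?_
  have hev : ∀ᶠ i in atTop, ‖a i‖ < ε := by
    have h1 := htt.norm
    rw [norm_zero] at h1
    exact h1.eventually (gt_mem_nhds hε)
  filter_upwards [hev] with i hi
  have hHs := hH (a i) hi
  have h1 : ∀ v ∈ K, ∀ i' : ℕ, 1 ≤ i' → i' ≤ m → (H (a i))^[i'] v = F^[i'] (A (a i) v) := by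
    intro v hv i' hi1
    induction i' with
    | zero => omega
    | succ i' ih =>
      intro him
      rcases Nat.eq_zero_or_pos i' with h0 | h0
      · subst h0
        have h2 : f v = 1 := hf1 hv
        show H (a i) v = F (A (a i) v)
        rw [hHs, if_pos (h.sub hv), h2, one_smul]
      · rw [Function.iterate_succ_apply', ih h0 (by omega), hHs, Function.iterate_succ_apply' F]
        have h2 : f (F^[i'] (A (a i) v)) = 0 := hf0 (by
          left
          rw [hC0]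
          simp only [mem_iUnion, Finset.mem_Ico]
          exact ⟨i', ⟨h0, by omega⟩, _, h.inv _ _ hv, rfl⟩)
        congr 1
        by_cases hO : F^[i'] (A (a i) v) ∈ O
        · rw [if_pos hO, h2, zero_smul, h.act.zero _ hO]
        · rw [if_neg hO]
  have h2 : ∀ v ∈ K, (H (a i))^[m] v = F^[m] (A (a i) v) := fun v hv => h1 v hv m h.period le_rfl
  -- the conjugacy
  have h3 : ∀ q' : ℕ, (H (a i))^[m * q'] (A (-a i) (w i)) =
      A (-a i) ((fun v => A (a i) (F^[m] v))^[q'] (w i)) ∧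
      (fun v => A (a i) (F^[m] v))^[q'] (w i) ∈ K := by
    intro q'
    induction q' with
    | zero => exact ⟨rfl, hwK i⟩
    | succ q' ih =>
      rw [Function.iterate_succ_apply']
      refine ⟨?_, h.inv _ _ (hretK _ ih.2)⟩
      rw [Nat.mul_succ, add_comm, Function.iterate_add_apply, ih.1, h2 _ (h.inv _ _ ih.2),
        ← hAadd _ _ _ ih.2, add_neg_cancel, hA0 _ ih.2, ← hAadd _ _ _ (hretK _ ih.2),
        neg_add_cancel, hA0 _ (hretK _ ih.2)]
  refine ⟨m * q i, Nat.mul_pos h.period (hq i), ?_⟩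
  rw [(h3 (q i)).1, hper]

end Pool.Agent.KS6_36.LT
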